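import Pool.Agent.H90.RechtProof

namespace Pool.Agent.Results.MP_6eb00f_an.UpperFails

open Pool.Agent.H90.Recht

/-- The upper half of the Recht–Ré inequality fails (the proof takes `m = n = d = 6`). -/
theorem result :
    ¬ ∀ (n m d : ℕ) (A : Fin n → Matrix (Fin d) (Fin d) ℝ), 1 ≤ m → m ≤ n → 1 ≤ d →
      (∀ i, (A i).PosSemidef) →
      ((n : ℝ) • (1 : Matrix (Fin d) (Fin d) ℝ) - ∑ i, A i).PosSemidef →
      (((n.factorial : ℝ) / ((n - m).factorial : ℝ)) • (1 : Matrix (Fin d) (Fin d) ℝ)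
        - S m A).PosSemidef := by
  intro h
  have h1 := (h 6 6 6 A (by norm_num) le_rfl (by norm_num) A_psd sum_psd).diag_nonneg (i := 0)
  have h2 := big
  simp only [Matrix.sub_apply, Matrix.smul_apply, Matrix.one_apply_eq, smul_eq_mul] at h1
  norm_num [Nat.factorial] at h1
  linarith

end Pool.Agent.Results.MP_6eb00f_an.UpperFails
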